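import Mathlib

set_option autoImplicit false

namespace Pool.Agent.Results.MP_ae1cd8_an.No

open Set Filter Topology MeasureTheory ProbabilityTheory
open scoped ENNReal NNReal

/-- `σ(x) = ∫ p(y,x) ν(dy)` -/
noncomputable def sig {Ω : Type} [MeasurableSpace Ω] (ν : Measure Ω) (p : Ω → Ω → ℝ≥0) (x : Ω) :
    ℝ≥0∞ := ∫⁻ y, p y x ∂ν

/-- `σ̂_s(y) = ∫ p(y,x) ν(dx)` -/
noncomputable def sigHat {Ω : Type} [MeasurableSpace Ω] (ν : Measure Ω) (p : Ω → Ω → ℝ≥0)
    (y : Ω) : ℝ≥0∞ := ∫⁻ x, p y x ∂ν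

/-- `S` is a `C₀`-semigroup -/
def IsC0 {E : Type} [NormedAddCommGroup E] [NormedSpace ℂ E] (S : ℝ → E →L[ℂ] E) : Prop :=
  S 0 = 1 ∧ (∀ s t, 0 ≤ s → 0 ≤ t → S (s + t) = S s * S t) ∧
    ∀ φ, ContinuousOn (fun t => S t φ) (Ici 0)

/-- `φ` lies in the domain of the generator of `S`, which sends it to `ψ` -/
def GenGraph {E : Type} [NormedAddCommGroup E] [NormedSpace ℂ E] (S : ℝ → E →L[ℂ] E)
    (φ ψ : E) : Prop :=
  Tendsto (fun t : ℝ => (t : ℂ)⁻¹ • (S t φ - φ)) (𝓝[>] 0) (𝓝 ψ)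

/-- `φ ∈ D(M₁)` and `ψ = (M₁ + P) φ` -/
def U1Graph {Ω : Type} [MeasurableSpace Ω] (ν μ : Measure Ω) (p : Ω → Ω → ℝ≥0)
    (φ ψ : Ω → ℂ) : Prop :=
  Integrable (fun x => ((sig ν p x).toReal : ℂ) * φ x) μ ∧
    ψ =ᵐ[μ] fun x => -((sig ν p x).toReal : ℂ) * φ x + ∫ y, ((p x y : ℝ) : ℂ) * φ y ∂ν

/-- `S` is a `C₀`-semigroup on `L¹(μ)` whose generator is `M₁ + P` with domain `D(M₁)` -/
def Generates {Ω : Type} [MeasurableSpace Ω] (ν μ : Measure Ω) (p : Ω → Ω → ℝ≥0)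
    (S : ℝ → Lp ℂ 1 μ →L[ℂ] Lp ℂ 1 μ) : Prop :=
  IsC0 S ∧ ∀ φ ψ : Lp ℂ 1 μ, GenGraph S φ ψ ↔ U1Graph ν μ p φ ψ

/-- uniform boundedness -/
def UnifBdd {E : Type} [NormedAddCommGroup E] [NormedSpace ℂ E] (S : ℝ → E →L[ℂ] E) : Prop :=
  ∃ M, ∀ t, 0 ≤ t → ‖S t‖ ≤ M

/-- the standing assumptions -/
def Admissible {Ω : Type} [MeasurableSpace Ω] (ν : Measure Ω) (p : Ω → Ω → ℝ≥0)
    (ω : Ω → ℝ≥0) : Prop :=
  Measurable (Function.uncurry p) ∧ Measurable ω ∧ (∀ x, 0 < ω x) ∧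
    (∀ x y, ω x * p x y = ω y * p y x) ∧ (∀ x, 0 < sig ν p x ∧ sig ν p x < ∞) ∧
    ∃ C : ℝ≥0, ∀ y, sigHat ν p y ≤ C * (1 + sig ν p y)

theorem genGraph_iff {E : Type} [NormedAddCommGroup E] [NormedSpace ℂ E] [NormedSpace ℝ E]
    [IsScalarTower ℝ ℂ E] (S : ℝ → E →L[ℂ] E) (φ ψ : E) : GenGraph S φ ψ ↔
      Tendsto (fun t : ℝ => t⁻¹ • (S t φ - φ)) (𝓝[>] 0) (𝓝 ψ) :=
  tendsto_congr fun t => by
    rw [← Complex.ofReal_inv]
    exact IsScalarTower.algebraMap_smul ℂ t⁻¹ _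

theorem resolvent {E : Type} [NormedAddCommGroup E] [NormedSpace ℂ E] [NormedSpace ℝ E]
    [IsScalarTower ℝ ℂ E] {S : ℝ → E →L[ℂ] E}
    (h0 : S 0 = 1) (h1 : ∀ s t, 0 ≤ s → 0 ≤ t → S (s + t) = S s * S t) {φ ψ : E}
    (h2 : ContinuousOn (fun t => S t φ) (Ici 0))
    (h3 : Tendsto (fun t : ℝ => t⁻¹ • (S t φ - φ)) (𝓝[>] 0) (𝓝 ψ)) {M l : ℝ}
    (hM : ∀ t, 0 ≤ t → ‖S t‖ ≤ M) (hl : 0 < l) : l * ‖φ‖ ≤ M * ‖l • φ - ψ‖ := by
  have hM0 : 0 ≤ M := (norm_nonneg _).trans (hM 0 le_rfl)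
  have hd (t : ℝ) (ht : 0 ≤ t) : HasDerivWithinAt (fun t => S t φ) (S t ψ) (Ici t) t := by
    rw [hasDerivWithinAt_iff_tendsto_slope, Ici_sdiff_left]
    have h4 : Tendsto (fun u => u - t) (𝓝[>] t) (𝓝[>] 0) :=
      tendsto_nhdsWithin_iff.2 ⟨tendsto_nhdsWithin_of_tendsto_nhds
        (Continuous.tendsto' (by fun_prop) _ _ (by simp)),
        eventually_mem_nhdsWithin.mono fun u hu => mem_Ioi.2 (sub_pos.2 hu)⟩
    refine (((S t).continuous.tendsto ψ).comp (h3.comp h4)).congr' ?_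
    filter_upwards [self_mem_nhdsWithin] with u hu
    have := h1 t (u - t) ht (sub_pos.2 hu).le
    rw [add_sub_cancel] at this
    simp [slope, this]
  have he (t : ℝ) : HasDerivAt (fun t => Real.exp (-l * t)) (Real.exp (-l * t) * -l) t := by
    simpa using ((hasDerivAt_id t).const_mul (-l)).exp
  set K := M * ‖l • φ - ψ‖
  have hK : 0 ≤ K := mul_nonneg hM0 (norm_nonneg _)
  have key (T : ℝ) (hT : 0 ≤ T) : ‖φ‖ ≤ K / l + Real.exp (-l * T) * (M * ‖φ‖) := by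
    have := image_norm_le_of_norm_deriv_right_le_deriv_boundary (a := 0) (b := T)
      (f := fun t => Real.exp (-l * t) • S t φ - φ)
      (f' := fun t => Real.exp (-l * t) • S t ψ + (Real.exp (-l * t) * -l) • S t φ)
      (((by fun_prop : Continuous fun t => Real.exp (-l * t)).continuousOn.smul
        (h2.mono Icc_subset_Ici_self)).sub continuousOn_const)
      (fun t ht => ((he t).hasDerivWithinAt.smul (hd t ht.1)).sub_const φ)
      (B := fun t => K / l * (1 - Real.exp (-l * t))) (B' := fun t => K * Real.exp (-l * t))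
      (by simp [h0]) (fun t => by
        refine (((he t).const_sub 1).const_mul (K / l)).congr_deriv ?_
        field_simp)
      (fun t ht => by
        rw [show Real.exp (-l * t) • S t ψ + (Real.exp (-l * t) * -l) • S t φ =
          Real.exp (-l * t) • S t (-(l • φ - ψ)) by
            simp only [map_neg, map_sub, (S t).map_smul_of_tower]; module,
          norm_smul, Real.norm_of_nonneg (Real.exp_pos _).le, mul_comm]
        refine mul_le_mul_of_nonneg_right (((S t).le_opNorm _).trans ?_) (Real.exp_pos _).le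
        rw [norm_neg]
        exact mul_le_mul_of_nonneg_right (hM t ht.1) (norm_nonneg _)) ⟨hT, le_rfl⟩
    have h5 := norm_sub_norm_le φ (Real.exp (-l * T) • S T φ)
    rw [norm_sub_rev, norm_smul, Real.norm_of_nonneg (Real.exp_pos _).le] at h5
    have h6 := mul_le_mul_of_nonneg_left (((S T).le_opNorm φ).trans
      (mul_le_mul_of_nonneg_right (hM T hT) (norm_nonneg _))) (Real.exp_pos (-l * T)).le
    have h7 : 0 ≤ K / l * Real.exp (-l * T) := by positivity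
    linarith
  have h8 : Tendsto (fun T => K / l + Real.exp (-l * T) * (M * ‖φ‖)) atTop
      (𝓝 (K / l + 0 * (M * ‖φ‖))) :=
    ((Real.tendsto_exp_atBot.comp (tendsto_id.const_mul_atTop_of_neg
      (neg_lt_zero.2 hl))).mul_const _).const_add _
  have := ge_of_tendsto h8 ((eventually_ge_atTop 0).mono key)
  rwa [zero_mul, add_zero, le_div_iff₀ hl, mul_comm] at this

noncomputable def ν : Measure ℕ := geometricMeasure ⟨1 / 2, by norm_num, by norm_num⟩

instance : IsProbabilityMeasure ν := by unfold ν; infer_instance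

noncomputable def ω (n : ℕ) : ℝ≥0 := 1 / (n + 1)

theorem ω_pos (n : ℕ) : 0 < ω n := by unfold ω; positivity

theorem ω_le (n : ℕ) : ω n ≤ 1 := div_le_one_of_le₀ (by simp) zero_le

noncomputable def μ : Measure ℕ := ν.withDensity fun n => ω n

theorem lint_le : ∫⁻ n, ω n ∂ν ≤ 1 :=
  (lintegral_mono fun n => ENNReal.coe_le_one_iff.2 (ω_le n)).trans (by simp)

instance : IsFiniteMeasure μ := isFiniteMeasure_withDensity (lint_le.trans_lt ENNReal.one_lt_top).ne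

theorem μ_pos (n : ℕ) : 0 < μ.real {n} := by
  have h1 : (⟨1 / 2, by norm_num, by norm_num⟩ : unitInterval) ≠ 0 := by
    intro h; have := congrArg Subtype.val h; norm_num at this
  have h2 : (⟨1 / 2, by norm_num, by norm_num⟩ : unitInterval) ≠ 1 := by
    intro h; have := congrArg Subtype.val h; norm_num at this
  rw [measureReal_def, μ, withDensity_apply _ (measurableSet_singleton n), lintegral_singleton,
    ENNReal.toReal_mul]
  exact mul_pos (ω_pos n) (geometricMeasure_real_singleton_pos h1 h2 n)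

theorem int_inv : Integrable (fun n => (ω n : ℝ)⁻¹) μ ∧ ∫ n, (ω n : ℝ)⁻¹ ∂μ = 1 := by
  have e : (fun n => ω n • (ω n : ℝ)⁻¹) = fun _ => 1 :=
    funext fun n => mul_inv_cancel₀ (NNReal.coe_pos.2 (ω_pos n)).ne'
  rw [μ, integrable_withDensity_iff_integrable_smul Measurable.of_discrete,
    integral_withDensity_eq_integral_smul Measurable.of_discrete, e]
  simp

theorem ω_mem : MemLp (fun n => -((ω n : ℝ) : ℂ)) ∞ μ :=
  memLp_top_of_bound Measurable.of_discrete.aestronglyMeasurable 1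
    (ae_of_all _ fun n => by simpa using ω_le n)

noncomputable def U : Lp ℂ 1 μ →L[ℂ] Lp ℂ 1 μ :=
  (ContinuousLinearMap.mul ℂ ℂ).holderL μ ∞ 1 1 ω_mem.toLp +
    (L1.integralCLM' ℂ).smulRight (Lp.const 1 μ 1)

theorem U_ae (φ : Lp ℂ 1 μ) : U φ =ᵐ[μ] fun x => -((ω x : ℝ) : ℂ) * φ x + ∫ y, φ y ∂μ := by
  have e : U φ = (ContinuousLinearMap.mul ℂ ℂ).holder 1 ω_mem.toLp φ +
      (∫ y, φ y ∂μ) • Lp.const 1 μ (1 : ℂ) := by
    rw [← L1.integral_eq_integral, L1.integral_eq' ℂ]; rfl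
  rw [e]
  filter_upwards [Lp.coeFn_add ((ContinuousLinearMap.mul ℂ ℂ).holder 1 ω_mem.toLp φ)
    ((∫ y, φ y ∂μ) • Lp.const 1 μ (1 : ℂ)),
    (ContinuousLinearMap.mul ℂ ℂ).coeFn_holder (r := 1) ω_mem.toLp φ, ω_mem.coeFn_toLp,
    Lp.coeFn_smul (∫ y, φ y ∂μ) (Lp.const 1 μ (1 : ℂ)), Lp.coeFn_const 1 μ (1 : ℂ)]
    with x h1 h2 h3 h4 h5
  rw [h1, Pi.add_apply, h2, h3, h4, Pi.smul_apply, h5]
  simp

theorem gen_iff (φ ψ : Lp ℂ 1 μ) : U1Graph ν μ (fun _ y => ω y) φ ψ ↔ ψ = U φ := by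
  unfold U1Graph
  have e (x : ℕ) : (sig ν (fun _ y => ω y) x).toReal = ω x := by simp [sig]
  have e2 : ∫ y, ((ω y : ℝ) : ℂ) * φ y ∂ν = ∫ y, φ y ∂μ := by
    refine Eq.trans ?_ (integral_withDensity_eq_integral_smul Measurable.of_discrete _).symm
    exact integral_congr_ae (ae_of_all _ fun y => by simp [NNReal.smul_def])
  simp only [e, e2]
  refine ⟨fun h => Lp.ext (h.2.trans (U_ae φ).symm), fun h => ⟨?_, h ▸ U_ae φ⟩⟩
  exact (L1.integrable_coeFn φ).bdd_mul (c := 1) Measurable.of_discrete.aestronglyMeasurable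
    (ae_of_all _ fun n => by simpa using ω_le n)

theorem test (k : ℕ) : ∃ φ : Lp ℂ 1 μ, 1 ≤ ‖φ‖ ∧
    ‖(ω k : ℝ) • φ - U φ‖ = 2 * ω k * |1 - ∫ n, ((ω k : ℝ) + ω n)⁻¹ ∂μ| := by
  have hk := NNReal.coe_pos.2 (ω_pos k)
  set β := (1 - ∫ n, ((ω k : ℝ) + ω n)⁻¹ ∂μ) / μ.real {k} with hβ
  have h1 : Integrable (fun n => ((ω k : ℝ) + ω n)⁻¹) μ :=
    .of_bound Measurable.of_discrete.aestronglyMeasurable (ω k : ℝ)⁻¹ (ae_of_all _ fun n => by
      rw [Real.norm_of_nonneg (by positivity)]; exact inv_anti₀ hk (by simp))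
  have h2 : Integrable (({k} : Set ℕ).indicator fun _ => β) μ :=
    (integrable_const β).indicator (measurableSet_singleton k)
  have h3 : Integrable (fun n => (((((ω k : ℝ) + ω n)⁻¹ +
      ({k} : Set ℕ).indicator (fun _ => β) n : ℝ)) : ℂ)) μ := (h1.add h2).ofReal (𝕜 := ℂ)
  have h4 : ∫ y, h3.toL1 _ y ∂μ = 1 := by
    rw [integral_congr_ae h3.coeFn_toL1, integral_complex_ofReal, integral_add h1 h2,
      integral_indicator_const _ (measurableSet_singleton k), hβ, smul_eq_mul,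
      mul_div_cancel₀ _ (μ_pos k).ne']
    simp
  refine ⟨h3.toL1 _, ?_, ?_⟩
  · rw [L1.norm_eq_integral_norm]
    exact (by rw [h4, norm_one] : (1 : ℝ) = _).le.trans (norm_integral_le_integral_norm _)
  · rw [L1.norm_eq_integral_norm, integral_congr_ae
      (g := ({k} : Set ℕ).indicator fun _ => 2 * ω k * |β|), integral_indicator_const _
      (measurableSet_singleton k), hβ, abs_div, abs_of_pos (μ_pos k), smul_eq_mul]
    · field_simp [(μ_pos k).ne']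
    filter_upwards [Lp.coeFn_sub ((ω k : ℝ) • h3.toL1 _) (U (h3.toL1 _)), U_ae (h3.toL1 _),
      Lp.coeFn_smul (ω k : ℝ) (h3.toL1 _), h3.coeFn_toL1] with x e1 e2 e3 e4
    have hx : (ω k : ℝ) + ω x ≠ 0 := by positivity
    rw [e1, Pi.sub_apply, e2, e3, Pi.smul_apply, h4, e4]
    have e5 (a : ℝ) : (ω k : ℝ) • ((a : ℝ) : ℂ) - (-((ω x : ℝ) : ℂ) * (a : ℝ) + 1) =
        ((((ω k : ℝ) + ω x) * a - 1 : ℝ) : ℂ) := by simp; ring
    refine (congrArg norm (e5 _)).trans ?_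
    rw [Complex.norm_real, mul_add, mul_inv_cancel₀ hx, add_sub_cancel_left]
    by_cases h : x = k
    · subst h
      simp [two_mul, abs_of_pos (add_pos hk hk)]
    · simp [h]

theorem ex : Generates ν μ (fun _ y => ω y) fun t => NormedSpace.exp (t • U) := by
  refine ⟨⟨by simp, fun s t _ _ => ?_, fun φ => ?_⟩, fun φ ψ => ?_⟩
  · let +nondep : NormedAlgebra ℚ (Lp ℂ 1 μ →L[ℂ] Lp ℂ 1 μ) := .restrictScalars ℚ ℂ _
    change NormedSpace.exp ((s + t) • U) = _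
    rw [add_smul]
    exact NormedSpace.exp_add_of_commute (((Commute.refl U).smul_left s).smul_right t)
  · exact ((continuous_iff_continuousAt.2 fun t =>
      (hasDerivAt_exp_smul_const U t).continuousAt).clm_apply continuous_const).continuousOn
  · refine (genGraph_iff _ _ _).trans (Iff.trans ?_ (gen_iff φ ψ).symm)
    have h : Tendsto (fun t : ℝ => t⁻¹ • (NormedSpace.exp (t • U) φ - φ)) (𝓝[>] 0) (𝓝 (U φ)) := by
      have z : NormedSpace.exp ((0 : ℝ) • U) = 1 := by simp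
      have := ((continuous_id.clm_apply (continuous_const (y := φ))).tendsto _).comp
        (hasDerivAt_exp_smul_const U (0 : ℝ)).tendsto_slope_zero_right
      erw [z] at this
      simp only [zero_add] at this
      exact this
    exact ⟨fun h' => tendsto_nhds_unique h' h, fun h' => h' ▸ h⟩

theorem unb (S : ℝ → Lp ℂ 1 μ →L[ℂ] Lp ℂ 1 μ) :
    Generates ν μ (fun _ y => ω y) S → ¬ UnifBdd S := by
  · rintro ⟨⟨h0, h1, h2⟩, h3⟩ ⟨M, hM⟩
    have hω : Tendsto (fun k => (ω k : ℝ)) atTop (𝓝 0) := by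
      simpa [ω] using tendsto_one_div_add_atTop_nhds_zero_nat (𝕜 := ℝ)
    have h4 : Tendsto (fun k => ∫ n, ((ω k : ℝ) + ω n)⁻¹ ∂μ) atTop (𝓝 (∫ n, (ω n : ℝ)⁻¹ ∂μ)) :=
      tendsto_integral_of_dominated_convergence _
        (fun _ => Measurable.of_discrete.aestronglyMeasurable) int_inv.1
        (fun k => ae_of_all _ fun n => by
          rw [Real.norm_of_nonneg (by positivity)]
          exact inv_anti₀ (NNReal.coe_pos.2 (ω_pos n)) (by simp))
        (ae_of_all _ fun n => by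
          simpa using (hω.add_const (ω n : ℝ)).inv₀ (by simpa using (ω_pos n).ne'))
    have h5 : Tendsto (fun k => M * (2 * |1 - ∫ n, ((ω k : ℝ) + ω n)⁻¹ ∂μ|)) atTop (𝓝 0) := by
      simpa [int_inv.2] using ((h4.const_sub 1).abs.const_mul 2).const_mul M
    obtain ⟨k, hk⟩ := (h5.eventually (gt_mem_nhds one_pos)).exists
    obtain ⟨φ, a, b⟩ := test k
    have hk0 := NNReal.coe_pos.2 (ω_pos k)
    have := resolvent h0 h1 (h2 φ) ((genGraph_iff _ _ _).1
      ((h3 φ (U φ)).2 ((gen_iff φ _).2 rfl))) hM hk0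
    rw [b] at this
    nlinarith [mul_lt_mul_of_pos_left hk hk0]

theorem result : ∃ (Ω : Type) (_ : MeasurableSpace Ω) (ν : Measure Ω) (_ : SigmaFinite ν)
    (p : Ω → Ω → ℝ≥0) (ω : Ω → ℝ≥0) (μ : Measure Ω), μ = ν.withDensity (fun x => ω x) ∧
    Admissible ν p ω ∧ (∀ x y, 0 < p x y) ∧ Integrable (fun x => (ω x : ℝ)⁻¹) μ ∧
    (∃ S, Generates ν μ p S) ∧ ∀ S, Generates ν μ p S → ¬ UnifBdd S :=
  ⟨ℕ, inferInstance, ν, inferInstance, fun _ y => ω y, ω, μ, rfl, ⟨Measurable.of_discrete,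
    Measurable.of_discrete, ω_pos, fun _ _ => mul_comm _ _,
    fun x => by simpa [sig] using ω_pos x, 1, fun y => lint_le.trans (by simp)⟩, fun _ => ω_pos,
    int_inv.1, ⟨_, ex⟩, unb⟩

end Pool.Agent.Results.MP_ae1cd8_an.No
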